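import Pool.Agent.H868R3.TBIso

/-!
# Gluing pairs of points in several fibres: isomorphic cylinders

For points `P i` of an affine curve `Spec R` and numbers `t i` we glue the points `(P i, 0)` and
`(P i, t i)` of `Spec R × 𝔸¹` for all `i`. Here: the cylinders over these surfaces are isomorphic.
This follows the case of two points in `Pool.Agent.H868R3.TBIso`.
-/

open Polynomial

set_option autoImplicit false

namespace Pool.Agent.Y374.TB

open Pool.Agent.H868R3

universe u

variable {K R : Type u} [Field K] [CommRing R] [Algebra K R] {ι : Type}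

/-- the functions on `C × 𝔸¹` with `f (P i, 0) = f (P i, t i)` for all `i` -/
noncomputable def glN (P : ι → (R →ₐ[K] K)) (t : ι → K) : Subalgebra K R[X] :=
  ⨅ i, AlgHom.equalizer (ev (P i) 0) (ev (P i) (t i))

lemma mem_glN {P : ι → (R →ₐ[K] K)} {t : ι → K} {f : R[X]} :
    f ∈ glN P t ↔ ∀ i, ev (P i) 0 f = ev (P i) (t i) f := by
  simp [glN, Algebra.mem_iInf, AlgHom.mem_equalizer]

/-- the same condition on the product with a line -/
noncomputable def glLine (P : ι → (R →ₐ[K] K)) (t : ι → K) : Subalgebra K R[X][X] :=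
  ⨅ i, AlgHom.equalizer (mapAlgHom (ev (P i) 0)) (mapAlgHom (ev (P i) (t i)))

lemma mem_glLine {P : ι → (R →ₐ[K] K)} {t : ι → K} {f : R[X][X]} :
    f ∈ glLine P t ↔ ∀ i, mapAlgHom (ev (P i) 0) f = mapAlgHom (ev (P i) (t i)) f := by
  simp only [glLine, Algebra.mem_iInf, AlgHom.mem_equalizer]

lemma mem_glLine_iff {P : ι → (R →ₐ[K] K)} {t : ι → K} {f : R[X][X]} :
    f ∈ glLine P t ↔ ∀ n, f.coeff n ∈ glN P t := by
  rw [mem_glLine]
  simp only [mem_glN, Polynomial.ext_iff, coe_mapAlgHom, coeff_map, RingHom.coe_coe]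
  exact ⟨fun h n i => h i n, fun h i n => h n i⟩

lemma range_map_val (P : ι → (R →ₐ[K] K)) (t : ι → K) :
    (mapAlgHom (glN P t).val).range = glLine P t := by
  ext f
  rw [mem_glLine_iff]
  constructor
  · rintro ⟨g, rfl⟩ n
    simp only [AlgHom.toRingHom_eq_coe, RingHom.coe_coe, coe_mapAlgHom, coeff_map]
    exact (g.coeff n).2
  · intro h
    have h1 : f ∈ Polynomial.lifts ((glN P t).val : glN P t →+* R[X]) := by
      rw [Polynomial.lifts_iff_coeff_lifts]
      intro n
      exact ⟨⟨f.coeff n, h n⟩, rfl⟩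
    obtain ⟨g, hg⟩ := h1
    exact ⟨g, hg⟩

lemma map_val_injective (P : ι → (R →ₐ[K] K)) (t : ι → K) :
    Function.Injective (mapAlgHom (glN P t).val) := by
  intro f g h
  have := Polynomial.map_injective ((glN P t).val : glN P t →+* R[X])
    Subtype.val_injective
  exact this h

/-- polynomials over the glued ring are the functions on the product glued along lines -/
noncomputable def polyEquiv (P : ι → (R →ₐ[K] K)) (t : ι → K) :
    (glN P t)[X] ≃ₐ[K] glLine P t :=
  (AlgEquiv.ofInjective (mapAlgHom (glN P t).val) (map_val_injective P t)).trans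
    (Subalgebra.equivOfEq _ _ (range_map_val P t))

lemma lsub_mem (P : ι → (R →ₐ[K] K)) (a b c d : R) (s s' t : ι → K) (ha : ∀ i, P i a = s i)
    (hb : ∀ i, P i b = 0) (hc : ∀ i, P i c = 0) (hd : ∀ i, P i d = s' i) {F : R[X][X]}
    (hF : F ∈ glLine P (fun i => s i * t i)) :
    lsub a b c d F ∈ glLine P t := by
  rw [mem_glLine] at hF ⊢
  intro i
  rw [map_ev_lsub (P i) a b c d (s i) (s' i) (ha i) (hb i) (hc i) (hd i),
    map_ev_lsub (P i) a b c d (s i) (s' i) (ha i) (hb i) (hc i) (hd i)]
  simp only [mul_zero]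
  rw [hF i]

/-- the products with a line are isomorphic -/
theorem cylinder_equiv (P : ι → (R →ₐ[K] K)) (a b c d : R) (h : a * d - b * c = 1)
    (s s' t : ι → K) (hss : ∀ i, s' i * s i = 1) (ha : ∀ i, P i a = s i)
    (hb : ∀ i, P i b = 0) (hc : ∀ i, P i c = 0) (hd : ∀ i, P i d = s' i) :
    Nonempty ((glN P (fun i => s i * t i))[X] ≃ₐ[K] (glN P t)[X]) := by
  let e := (lequiv a b c d h).restrictScalars K
  have he : ∀ F, e F = lsub a b c d F := fun F => rfl
  have hes : ∀ F, e.symm F = lsub d (-b) (-c) a F := fun F => rfl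
  have h1 : ∀ F ∈ glLine P (fun i => s i * t i), e F ∈ glLine P t := fun F hF => by
    rw [he]; exact lsub_mem P a b c d s s' t ha hb hc hd hF
  have h2 : ∀ F ∈ glLine P t, e.symm F ∈ glLine P (fun i => s i * t i) := fun F hF => by
    rw [hes]
    refine lsub_mem P d (-b) (-c) a s' s (fun i => s i * t i) hd ?_ ?_ ha ?_
    · intro i; simp [hb]
    · intro i; simp [hc]
    · have h3 : (fun i => s' i * (s i * t i)) = t := by
        funext i
        rw [← mul_assoc, hss, one_mul]
      rwa [h3]
  have h3 : (glLine P (fun i => s i * t i)).map (e : R[X][X] →ₐ[K] R[X][X]) = glLine P t := by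
    ext F
    constructor
    · rintro ⟨G, hG, rfl⟩
      exact h1 G hG
    · intro hF
      exact ⟨e.symm F, h2 F hF, e.apply_symm_apply F⟩
  exact ⟨(polyEquiv P (fun i => s i * t i)).trans
    ((e.subalgebraMap (glLine P (fun i => s i * t i))).trans
    ((Subalgebra.equivOfEq _ _ h3).trans (polyEquiv P t).symm))⟩

end Pool.Agent.Y374.TB
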