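import Pool.Agent.Y374.TB.Cyl
import Pool.Agent.H868R3.TBNonIso

/-!
# Isomorphisms of the glued algebras

The extension of an isomorphism to the normalisation follows the case of two points in
`Pool.Agent.H868R3.TBNonIso`; the classification of the isomorphisms is new.
-/

open Polynomial

set_option autoImplicit false

namespace Pool.Agent.Y374.TB

open Pool.Agent.H868R3

universe u

variable {K R : Type u} [Field K] [CommRing R] [IsDomain R] [Algebra K R] {ι : Type} [Fintype ι]

omit [IsDomain R] [Fintype ι] in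
lemma C_mem_glN (P : ι → (R →ₐ[K] K)) (t : ι → K) (r : R) : (C r : R[X]) ∈ glN P t := by
  rw [mem_glN]; simp

omit [IsDomain R] [Fintype ι] in
lemma mul_mem_glN (P : ι → (R →ₐ[K] K)) (t : ι → K) (a : R) (ha : ∀ i, P i a = 0) (f : R[X]) :
    C a * f ∈ glN P t := by
  rw [mem_glN]; simp [ha]

/-- the constants inside the glued algebra -/
noncomputable def constN (P : ι → (R →ₐ[K] K)) (t : ι → K) : R →ₐ[K] glN P t :=
  (CAlgHom : R →ₐ[K] R[X]).codRestrict (glN P t)
    (fun r => C_mem_glN P t r)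

omit [IsDomain R] [Fintype ι] in
lemma constN_coe (P : ι → (R →ₐ[K] K)) (t : ι → K) (r : R) :
    (constN P t r : R[X]) = C r := rfl

/-- the base change of an isomorphism of glued algebras -/
theorem extension_data (P : ι → (R →ₐ[K] K)) (x y : R) (hxy : x * y = 1)
    (hgen : Algebra.adjoin K {x, y} = ⊤) (c : ι → K) (hc : Function.Injective c)
    (hP : ∀ i, P i x = c i) (hpr : ∀ i, Prime (x - algebraMap K R (c i))) (t t' : ι → K)
    (φ : glN P t ≃ₐ[K] glN P t') :
    ∃ (σ : R ≃ₐ[K] R) (z : R[X]),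
      (∀ r, (φ (constN P t r) : R[X]) = C (σ r)) ∧
      (∀ r, (φ.symm (constN P t' r) : R[X]) = C (σ.symm r)) ∧
      ∀ f : glN P t, (φ f : R[X]) = eval₂ (C.comp (σ : R →+* R)) z (f : R[X]) := by
  have hconst : ∀ (s s' : ι → K) (ψ : glN P s ≃ₐ[K] glN P s'),
      ∃ τ : R →ₐ[K] R, ∀ r, (ψ (constN P s r) : R[X]) = C (τ r) := by
    intro s s' ψ
    let g : R →ₐ[K] R[X] :=
      ((glN P s').val.comp (ψ : glN P s →ₐ[K] glN P s')).comp (constN P s)
    have hu : ∀ r : R, IsUnit r → ∃ r', g r = C r' := by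
      intro r hr
      have h1 : IsUnit (g r) := hr.map g
      obtain ⟨r', -, h2⟩ := Polynomial.isUnit_iff.mp h1
      exact ⟨r', h2.symm⟩
    let e0 : R[X] →ₐ[K] R := (Polynomial.aeval (0 : R) : R[X] →ₐ[R] R).restrictScalars K
    have he0 : ∀ r, e0 (C r) = r := by intro r; simp [e0]
    let τ : R →ₐ[K] R := e0.comp g
    refine ⟨τ, ?_⟩
    have h3 : g = (CAlgHom : R →ₐ[K] R[X]).comp τ := by
      apply AlgHom.ext_of_adjoin_eq_top hgen
      intro r hr
      have hr' : IsUnit r := by
        rcases hr with rfl | hr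
        · exact IsUnit.of_mul_eq_one _ hxy
        · rw [Set.mem_singleton_iff] at hr
          subst hr
          exact IsUnit.of_mul_eq_one _ (by rwa [mul_comm] at hxy)
      obtain ⟨r', h4⟩ := hu r hr'
      change g r = C (e0 (g r))
      rw [h4, he0]
    intro r
    have := congrArg (fun h : R →ₐ[K] R[X] => h r) h3
    exact this
  obtain ⟨σ, hσ⟩ := hconst t t' φ
  obtain ⟨σ', hσ'⟩ := hconst t' t φ.symm
  have h12 : ∀ r, σ (σ' r) = r := by
    intro r
    have h1 : φ.symm (constN P t' r) = constN P t (σ' r) := Subtype.ext (hσ' r)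
    have h2 : φ (constN P t (σ' r)) = constN P t' r := by
      rw [← h1, AlgEquiv.apply_symm_apply]
    have h3 := hσ (σ' r)
    rw [h2] at h3
    exact (C_injective h3).symm
  have h21 : ∀ r, σ' (σ r) = r := by
    intro r
    have h1 : φ (constN P t r) = constN P t' (σ r) := Subtype.ext (hσ r)
    have h2 : φ.symm (constN P t' (σ r)) = constN P t r := by
      rw [← h1, AlgEquiv.symm_apply_apply]
    have h3 := hσ' (σ r)
    rw [h2] at h3
    exact (C_injective h3).symm
  let SG : R ≃ₐ[K] R := AlgEquiv.ofAlgHom σ σ' (AlgHom.ext h12) (AlgHom.ext h21)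
  obtain ⟨a, ha⟩ : ∃ a : R, a = ∏ i, (x - algebraMap K R (c i)) := ⟨_, rfl⟩
  have hPa : ∀ i, P i a = 0 := fun i => by
    rw [ha, map_prod]
    exact Finset.prod_eq_zero (Finset.mem_univ i) (by simp [hP])
  have ha0 : a ≠ 0 := by
    rw [ha]; exact Finset.prod_ne_zero_iff.2 fun i _ => (hpr i).ne_zero
  have hσa0 : σ a ≠ 0 := by
    intro h
    apply ha0
    rw [← h21 a, h, map_zero]
  -- the element `φ (a z)`
  let az : glN P t := ⟨C a * X, mul_mem_glN P t a hPa X⟩
  let azz : glN P t := ⟨C a * X ^ 2, mul_mem_glN P t a hPa _⟩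
  have hsq : az * az = constN P t a * azz := by
    apply Subtype.ext
    change (C a * X) * (C a * X) = C a * (C a * X ^ 2)
    ring
  set w : R[X] := (φ az : R[X]) with hw
  have hw2 : w ^ 2 = C (σ a) * (φ azz : R[X]) := by
    have h1 := congrArg (fun f => ((φ f : glN P t') : R[X])) hsq
    simp only [map_mul, Subalgebra.coe_mul] at h1
    rw [hσ] at h1
    rw [sq]; exact h1
  have hprime : ∀ e : R, Prime e → e ∣ a → C (σ e) ∣ w := by
    intro e he hea
    have h1 : Prime (SG e) := (MulEquiv.prime_iff (SG : R ≃* R)).mpr he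
    have h2 : Prime (C (σ e) : R[X]) := Polynomial.prime_C_iff.mpr h1
    apply h2.dvd_of_dvd_pow (n := 2)
    rw [hw2]
    obtain ⟨d, hd⟩ := hea
    rw [hd, map_mul, C_mul, mul_assoc]
    exact Dvd.intro _ rfl
  have hdw : C (σ a) ∣ w := by
    have h1 : (C (σ a) : R[X]) = ∏ i, C (σ (x - algebraMap K R (c i))) := by
      rw [ha, map_prod, map_prod]
    rw [h1]
    apply Finset.prod_dvd_of_coprime
    · intro i _ j _ hij
      change IsCoprime (C (σ (x - algebraMap K R (c i)))) (C (σ (x - algebraMap K R (c j))))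
      have hne : c j - c i ≠ 0 := sub_ne_zero.2 fun h => hij (hc h.symm)
      refine ⟨C (algebraMap K R ((c j - c i)⁻¹)), C (algebraMap K R (-(c j - c i)⁻¹)), ?_⟩
      rw [← C_mul, ← C_mul, ← C_add]
      have h2 : algebraMap K R ((c j - c i)⁻¹) * σ (x - algebraMap K R (c i)) +
          algebraMap K R (-(c j - c i)⁻¹) * σ (x - algebraMap K R (c j)) = 1 := by
        have h3 : algebraMap K R ((c j - c i)⁻¹) *
            (algebraMap K R (c j) - algebraMap K R (c i)) = 1 := by
          rw [← map_sub, ← map_mul, inv_mul_cancel₀ hne, map_one]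
        simp only [map_sub, AlgHom.commutes, map_neg]
        linear_combination h3
      rw [h2, C_1]
    · intro i _
      exact hprime _ (hpr i) (by rw [ha]; exact Finset.dvd_prod_of_mem _ (Finset.mem_univ i))
  obtain ⟨z, hz⟩ := hdw
  refine ⟨SG, z, hσ, hσ', ?_⟩
  -- the extension
  let Φ : R[X] →+* R[X] := eval₂RingHom (C.comp (SG : R →+* R)) z
  have hΦC : ∀ r, Φ (C r) = C (σ r) := by
    intro r; simp [Φ]; rfl
  have hΦX : Φ X = z := by simp [Φ]
  let θ : R[X] →+* glN P t := eval₂RingHom (constN P t : R →+* glN P t) az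
  have hθ : ∀ g : R[X], ((θ g : glN P t) : R[X]) = g.comp (C a * X) := by
    intro g
    have : ((glN P t).val : glN P t →+* R[X]).comp θ = compRingHom (C a * X) := by
      apply Polynomial.ringHom_ext
      · intro r; simp [θ, constN_coe]
      · simp [θ, az]
    exact congrArg (fun h : R[X] →+* R[X] => h g) this
  have hφθ : ∀ g : R[X], (φ (θ g) : R[X]) = Φ (g.comp (C a * X)) := by
    intro g
    have : (((glN P t').val : glN P t' →+* R[X]).comp
        ((φ : glN P t →+* glN P t').comp θ)) = Φ.comp (compRingHom (C a * X)) := by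
      apply Polynomial.ringHom_ext
      · intro r
        simp only [RingHom.comp_apply, θ, coe_eval₂RingHom, eval₂_C, compRingHom, hΦC]
        exact hσ r
      · simp only [RingHom.comp_apply, θ, coe_eval₂RingHom, eval₂_X, compRingHom,
          map_mul, hΦC, hΦX]
        exact hz
    exact congrArg (fun h : R[X] →+* R[X] => h g) this
  intro f
  obtain ⟨N, g, hg⟩ := exists_scale a (f : R[X])
  have h1 : constN P t a ^ N * f = θ g := by
    apply Subtype.ext
    rw [hθ]
    exact hg
  have h2 := hφθ g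
  rw [← h1, ← hg, map_mul, map_mul, map_pow, map_pow, hΦC] at h2
  simp only [Subalgebra.coe_mul, SubmonoidClass.coe_pow] at h2
  rw [hσ] at h2
  have h3 : (C (σ a) ^ N : R[X]) ≠ 0 := pow_ne_zero _ (by simpa using hσa0)
  exact mul_left_cancel₀ h3 h2

/-- two points of a fibre which are not separated by the glued algebra -/
theorem not_sep [DecidableEq ι] (P : ι → (R →ₐ[K] K)) (x y : R)
    (hxy : x * y = 1) (hgen : Algebra.adjoin K {x, y} = ⊤) (c : ι → K)
    (hP : ∀ i, P i x = c i) (h : ι → R) (hh : ∀ i j, P j (h i) = if i = j then 1 else 0)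
    (t : ι → K) (χ : R →ₐ[K] K) (u v : K) (huv : u ≠ v)
    (hf : ∀ f ∈ glN P t, ev χ u f = ev χ v f) :
    ∃ j, χ = P j ∧ (u - v) ^ 2 = t j ^ 2 := by
  obtain ⟨a, ha⟩ : ∃ a : R, a = ∏ i, (x - algebraMap K R (c i)) := ⟨_, rfl⟩
  have hPa : ∀ i, P i a = 0 := fun i => by
    rw [ha, map_prod]
    exact Finset.prod_eq_zero (Finset.mem_univ i) (by simp [hP])
  have h1 := hf _ (mul_mem_glN P t a hPa X)
  simp only [map_mul, ev_C, ev_X] at h1
  have h2 : χ a = 0 := by
    by_contra h0
    exact huv (mul_left_cancel₀ h0 h1)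
  rw [ha, map_prod, Finset.prod_eq_zero_iff] at h2
  obtain ⟨j, -, hj⟩ := h2
  have h3 : χ x = c j := by
    rw [map_sub, AlgHom.commutes, sub_eq_zero] at hj
    simpa using hj
  have h4 : χ = P j := by
    apply AlgHom.ext_of_adjoin_eq_top hgen
    intro r hr
    rcases hr with rfl | hr
    · rw [h3, hP]
    · rw [Set.mem_singleton_iff] at hr
      subst hr
      have e1 : χ x * χ r = 1 := by rw [← map_mul, hxy, map_one]
      have e2 : P j x * P j r = 1 := by rw [← map_mul, hxy, map_one]
      rw [h3] at e1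
      rw [hP] at e2
      have hcj : c j ≠ 0 := by
        intro h0
        rw [h0, zero_mul] at e1
        exact zero_ne_one e1
      exact mul_left_cancel₀ hcj (e1.trans e2.symm)
  refine ⟨j, h4, ?_⟩
  subst h4
  have hhj : P j (h j) = 1 := by rw [hh, if_pos rfl]
  have m1 : C (h j) * (X ^ 2 - C (algebraMap K R (t j)) * X) ∈ glN P t := by
    rw [mem_glN]
    intro i
    simp only [map_mul, map_sub, map_pow, ev_C, ev_X, hh]
    by_cases hij : j = i
    · subst hij
      simp
      try ring
    · simp [hij]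
  have m2 : C (h j) * (X ^ 3 - C (algebraMap K R (t j)) * X ^ 2) ∈ glN P t := by
    rw [mem_glN]
    intro i
    simp only [map_mul, map_sub, map_pow, ev_C, ev_X, hh]
    by_cases hij : j = i
    · subst hij
      simp
      try ring
    · simp [hij]
  have g1 := hf _ m1
  have g2 := hf _ m2
  simp only [map_mul, map_sub, map_pow, ev_C, ev_X, hhj, one_mul, AlgHom.commutes,
    Algebra.algebraMap_self, RingHom.id_apply] at g1 g2
  have hne : u - v ≠ 0 := sub_ne_zero.mpr huv
  have e1 : u + v = t j := by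
    apply mul_left_cancel₀ hne
    linear_combination g1
  have e2 : u ^ 2 + u * v + v ^ 2 = t j * (u + v) := by
    apply mul_left_cancel₀ hne
    linear_combination g2
  linear_combination 4 * e2 - 3 * (u + v) * e1 + t j * e1

/-- isomorphisms of the glued algebras -/
theorem classify [DecidableEq ι] (P : ι → (R →ₐ[K] K)) (x y : R) (hxy : x * y = 1)
    (hgen : Algebra.adjoin K {x, y} = ⊤) (c : ι → K) (hc : Function.Injective c)
    (hP : ∀ i, P i x = c i) (hpr : ∀ i, Prime (x - algebraMap K R (c i)))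
    (h : ι → R) (hh : ∀ i j, P j (h i) = if i = j then 1 else 0) (t t' : ι → K)
    (ht' : ∀ i, t' i ≠ 0) (hiso : Nonempty (glN P t ≃ₐ[K] glN P t')) :
    ∃ (π : ι → ι) (ε : R), Function.Injective π ∧ IsUnit ε ∧
      ∀ i, (P i ε * t' i) ^ 2 = t (π i) ^ 2 := by
  obtain ⟨φ⟩ := hiso
  obtain ⟨σ, z, hσ, hσs, hφ⟩ := extension_data P x y hxy hgen c hc hP hpr t t' φ
  obtain ⟨τ, z', hτ, hτs, hφ'⟩ := extension_data P x y hxy hgen c hc hP hpr t' t φ.symm
  have hτσ : ∀ r, τ r = σ.symm r := by
    intro r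
    have h1 := hτ r
    rw [hσs] at h1
    exact (C_injective h1).symm
  obtain ⟨a, ha⟩ : ∃ a : R, a = ∏ i, (x - algebraMap K R (c i)) := ⟨_, rfl⟩
  have hPa : ∀ i, P i a = 0 := fun i => by
    rw [ha, map_prod]
    exact Finset.prod_eq_zero (Finset.mem_univ i) (by simp [hP])
  have ha0 : a ≠ 0 := by
    rw [ha]; exact Finset.prod_ne_zero_iff.2 fun i _ => (hpr i).ne_zero
  let az : glN P t := ⟨C a * X, mul_mem_glN P t a hPa X⟩
  have h1 : (φ az : R[X]) = C (σ a) * z := by
    rw [hφ az]; simp [az]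
  have h2 := hφ' (φ az)
  rw [AlgEquiv.symm_apply_apply, h1] at h2
  have h3 : C a * X = C a * eval₂ (C.comp (τ : R →+* R)) z' z := by
    have h4 : (az : R[X]) = C a * X := rfl
    have h4' : (C.comp (τ : R →+* R)) (σ a) = C a := by
      change C (τ (σ a)) = C a
      rw [hτσ, AlgEquiv.symm_apply_apply]
    rw [h4, eval₂_mul, eval₂_C, h4'] at h2
    exact h2
  have h5 : X = eval₂ (C.comp (τ : R →+* R)) z' z :=
    mul_left_cancel₀ (by simpa using ha0) h3
  have h6 : (z.map (τ : R →+* R)).comp z' = X := by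
    rw [h5, comp, eval₂_map]
  have hdeg : (z.map (τ : R →+* R)).natDegree * z'.natDegree = 1 := by
    rw [← natDegree_comp, h6, natDegree_X]
  have hd1 : (z.map (τ : R →+* R)).natDegree = 1 := Nat.eq_one_of_mul_eq_one_right hdeg
  have hd2 : z'.natDegree = 1 := Nat.eq_one_of_mul_eq_one_left hdeg
  have hτinj : Function.Injective (τ : R →+* R) := τ.injective
  have hd3 : z.natDegree = 1 := by
    rwa [natDegree_map_eq_of_injective hτinj] at hd1
  have hlc : (z.map (τ : R →+* R)).leadingCoeff * z'.leadingCoeff ^ 1 = 1 := by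
    have := leadingCoeff_comp (p := z.map (τ : R →+* R)) (q := z') (by rw [hd2]; norm_num)
    rw [h6, leadingCoeff_X, hd1] at this
    exact this.symm
  have hε : IsUnit (z.coeff 1) := by
    rw [leadingCoeff_map_of_injective hτinj, pow_one] at hlc
    have h7 : IsUnit (τ z.leadingCoeff) := IsUnit.of_mul_eq_one _ hlc
    have h8 : IsUnit z.leadingCoeff := by
      have := h7.map τ.symm
      simpa using this
    rwa [leadingCoeff, hd3] at h8
  have hz : z = C (z.coeff 1) * X + C (z.coeff 0) :=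
    Polynomial.eq_X_add_C_of_natDegree_le_one (le_of_eq hd3)
  set ε := z.coeff 1 with hεdef
  set κ := z.coeff 0 with hκdef
  have ez : ∀ (χ : R →ₐ[K] K) (s : K), ev χ s z = χ ε * s + χ κ := by
    intro χ s
    rw [hz]; simp
  -- evaluation after the isomorphism
  have hev : ∀ (χ : R →ₐ[K] K) (s : K) (f : glN P t),
      ev χ s (φ f : R[X]) = ev (χ.comp (σ : R →ₐ[K] R)) (χ ε * s + χ κ) (f : R[X]) := by
    intro χ s f
    rw [hφ f]
    have : ((ev χ s : R[X] →ₐ[K] K) : R[X] →+* K).comp
        (eval₂RingHom (C.comp (σ : R →+* R)) z) =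
        ((ev (χ.comp (σ : R →ₐ[K] R)) (χ ε * s + χ κ) : R[X] →ₐ[K] K) : R[X] →+* K) := by
      apply Polynomial.ringHom_ext
      · intro r
        simp
      · simp [ez]
    exact congrArg (fun g : R[X] →+* K => g (f : R[X])) this
  have key : ∀ i, ∃ j, (P i).comp (σ : R →ₐ[K] R) = P j ∧ (P i ε * t' i) ^ 2 = t j ^ 2 := by
    intro i
    have hne : P i ε * 0 + P i κ ≠ P i ε * t' i + P i κ := by
      intro h0
      have h1 : P i ε * t' i = 0 := by linear_combination (-1 : K) * h0
      rcases mul_eq_zero.mp h1 with h | h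
      · exact (hε.map (P i)).ne_zero h
      · exact ht' i h
    obtain ⟨j, hj1, hj2⟩ := not_sep P x y hxy hgen c hP h hh t ((P i).comp (σ : R →ₐ[K] R))
      _ _ hne (by
        intro f hf
        have h1 := (mem_glN.1 (φ ⟨f, hf⟩).2) i
        rw [hev, hev] at h1
        exact h1)
    refine ⟨j, hj1, ?_⟩
    rw [← hj2]
    ring
  choose π hπ1 hπ2 using key
  refine ⟨π, ε, ?_, hε, hπ2⟩
  intro i j hij
  have h7 : (P i).comp (σ : R →ₐ[K] R) = (P j).comp (σ : R →ₐ[K] R) := by
    rw [hπ1, hπ1, hij]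
  apply hc
  have h8 := congrArg (fun g : R →ₐ[K] K => g (σ.symm x)) h7
  simpa [hP] using h8

end Pool.Agent.Y374.TB
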