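import Pool.Agent.H868R3.TBBase

/-!
# Laurent polynomials: interpolation, matrices of determinant one, units at roots of unity
-/

open Polynomial

set_option autoImplicit false

namespace Pool.Agent.Y374.TB

open Pool.Agent.H868R3

universe u

variable {K : Type u} [Field K]

/-- a matrix of determinant one with prescribed diagonal values at finitely many points -/
lemma exists_matrix {n : ℕ} (c : Fin n → Kˣ) (hc : Function.Injective c) (s : Fin n → K)
    (hs : ∀ i, s i ≠ 0) :
    ∃ a b e d : LaurentPolynomial K, a * d - b * e = 1 ∧ (∀ i, evL (c i) a = s i) ∧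
      (∀ i, evL (c i) b = 0) ∧ (∀ i, evL (c i) e = 0) ∧ (∀ i, evL (c i) d = (s i)⁻¹) := by
  classical
  have hinj : Set.InjOn (fun i => (c i : K)) ((Finset.univ : Finset (Fin n)) : Set (Fin n)) :=
    fun i _ j _ h => hc (Units.ext h)
  let A : K[X] := Lagrange.interpolate Finset.univ (fun i => (c i : K)) s
  have hA : ∀ i, A.eval (c i : K) = s i := fun i =>
    Lagrange.eval_interpolate_at_node s hinj (Finset.mem_univ i)
  let M : K[X] := ∏ i, (X - C (c i : K))
  have hM : ∀ i, M.eval (c i : K) = 0 := fun i => by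
    rw [eval_prod]
    exact Finset.prod_eq_zero (Finset.mem_univ i) (by simp)
  have hcopM : IsCoprime A M := by
    apply IsCoprime.prod_right
    intro i _
    apply IsCoprime.symm
    rw [(irreducible_X_sub_C (c i : K)).coprime_iff_not_dvd, dvd_iff_isRoot, IsRoot.def, hA]
    exact hs i
  have hcop : IsCoprime A (M * M) := hcopM.mul_right hcopM
  obtain ⟨u, v, huv⟩ := hcop
  refine ⟨toLaurent A, toLaurent M, toLaurent (-(v * M)), toLaurent u, ?_, ?_, ?_, ?_, ?_⟩
  · rw [← map_mul, ← map_mul, ← map_sub, ← map_one (toLaurent (R := K))]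
    congr 1
    rw [← huv]; ring
  · intro i; rw [evL_toLaurent, hA]
  · intro i; rw [evL_toLaurent, hM]
  · intro i; rw [evL_toLaurent]; simp [hM]
  · intro i
    rw [evL_toLaurent]
    have h1 := congrArg (Polynomial.eval (c i : K)) huv
    simp only [eval_add, eval_mul, hA, hM, mul_zero, add_zero, eval_one] at h1
    exact eq_inv_of_mul_eq_one_left h1

/-- interpolation -/
lemma exists_delta {n : ℕ} (c : Fin n → Kˣ) (hc : Function.Injective c) :
    ∃ h : Fin n → LaurentPolynomial K, ∀ i j, evL (c j) (h i) = if i = j then 1 else 0 := by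
  classical
  have hinj : Set.InjOn (fun i => (c i : K)) ((Finset.univ : Finset (Fin n)) : Set (Fin n)) :=
    fun i _ j _ h => hc (Units.ext h)
  refine ⟨fun i => toLaurent (Lagrange.interpolate Finset.univ (fun i => (c i : K))
    (fun j => if i = j then 1 else 0)), fun i j => ?_⟩
  rw [evL_toLaurent, Lagrange.eval_interpolate_at_node _ hinj (Finset.mem_univ j)]

/-- the `N`-th power of a unit has the same value at all `N`-th roots of unity -/
lemma laurent_unit_pow (N : ℕ) (c d : Kˣ) (hc : c ^ N = 1) (hd : d ^ N = 1)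
    (r : LaurentPolynomial K) (hr : IsUnit r) : evL c r ^ N = evL d r ^ N := by
  obtain ⟨s, hs⟩ := hr.exists_right_inv
  obtain ⟨n, f, hf⟩ := LaurentPolynomial.exists_T_pow r
  obtain ⟨m, g, hg⟩ := LaurentPolynomial.exists_T_pow s
  have h1 : toLaurent (f * g) = toLaurent (X ^ (n + m) : K[X]) := by
    rw [map_mul, hf, hg, Polynomial.toLaurent_X_pow]
    have : r * LaurentPolynomial.T n * (s * LaurentPolynomial.T m) =
        (r * s) * (LaurentPolynomial.T n * LaurentPolynomial.T m) := by ring
    rw [this, hs, one_mul, ← LaurentPolynomial.T_add]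
    norm_num
  have h2 : f * g = X ^ (n + m) := Polynomial.toLaurent_injective h1
  have h3 : f ∣ X ^ (n + m) := ⟨g, h2.symm⟩
  obtain ⟨i, -, hi⟩ := (dvd_prime_pow Polynomial.prime_X _).mp h3
  obtain ⟨v, hv⟩ := hi
  obtain ⟨k, hk, hk2⟩ := Polynomial.isUnit_iff.mp v.isUnit
  have key : ∀ e : Kˣ, e ^ N = 1 → evL e r ^ N * k ^ N = 1 := by
    intro e he
    have he' : (e : K) ^ N = 1 := by
      rw [← Units.val_pow_eq_pow_val, he, Units.val_one]
    have e1 : f.eval (e : K) * k = (e : K) ^ i := by
      have := congrArg (Polynomial.eval (e : K)) hv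
      rw [eval_mul, ← hk2] at this
      simpa using this
    have e2 : f.eval (e : K) = evL e r * (e : K) ^ n := by
      have := congrArg (evL e) hf
      rw [map_mul, evL_toLaurent, evL_T, zpow_natCast, Units.val_pow_eq_pow_val] at this
      exact this
    have e3 : (evL e r * (e : K) ^ n * k) ^ N = ((e : K) ^ i) ^ N := by
      rw [← e2, e1]
    have e4 : ∀ j : ℕ, ((e : K) ^ j) ^ N = 1 := by
      intro j
      rw [← pow_mul, mul_comm, pow_mul, he', one_pow]
    rw [mul_pow, mul_pow, e4, e4, mul_one] at e3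
    exact e3
  have hk0 : k ^ N ≠ 0 := pow_ne_zero _ hk.ne_zero
  exact mul_right_cancel₀ hk0 ((key c hc).trans (key d hd).symm)

end Pool.Agent.Y374.TB
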