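import Pool.Agent.Y374.TB.Typ
import Pool.Agent.Y374.TB.Lau

/-!
# Families of varieties of type B with isomorphic cylinders
-/

open Polynomial

set_option autoImplicit false

namespace Pool.Agent.Y374.TB

open Pool.Agent.H868R3

universe u

variable {K : Type u} [Field K]

/-- the points `1, ω, …, ω ^ n` of `G_m` -/
def pts (n : ℕ) (ω : Kˣ) : Fin (n + 1) → Kˣ := fun i => ω ^ (i : ℕ)

/-- the parameters `1, t 0, …, t (n - 1)` -/
def par {n : ℕ} (t : Fin n → Kˣ) : Fin (n + 1) → K := Fin.cons 1 fun i => (t i : K)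

/-- The functions `f` on `G_m × 𝔸¹` with `f (ω ^ i, 0) = f (ω ^ i, T i)` for `i = 0, …, n`, where
`T = (1, t 0, …, t (n - 1))`. -/
noncomputable def fam (n : ℕ) (ω : Kˣ) (t : Fin n → Kˣ) : Subalgebra K (LaurentPolynomial K)[X] :=
  glN (fun i => evL (pts n ω i)) (par t)

lemma par_ne {n : ℕ} (t : Fin n → Kˣ) (i : Fin (n + 1)) : par t i ≠ 0 := by
  refine Fin.cases ?_ (fun j => ?_) i
  · simp [par]
  · simp [par]

lemma pts_inj {n : ℕ} {ω : Kˣ} (hω : IsPrimitiveRoot ω (n + 1)) :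
    Function.Injective (pts n ω) := fun i j h => Fin.ext (hω.pow_inj i.2 j.2 h)

lemma pts_pow {n : ℕ} {ω : Kˣ} (hω : IsPrimitiveRoot ω (n + 1)) (i : Fin (n + 1)) :
    pts n ω i ^ (n + 1) = 1 := by
  unfold pts
  rw [← pow_mul, mul_comm, pow_mul, hω.pow_eq_one, one_pow]

lemma evL_x (c : Kˣ) : evL c (LaurentPolynomial.T 1) = (c : K) := by
  rw [evL_T]; simp

lemma prime_x (c : Kˣ) :
    Prime (LaurentPolynomial.T 1 - algebraMap K (LaurentPolynomial K) (c : K)) := by
  rw [← LaurentPolynomial.C_eq_algebraMap]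
  exact laurent_prime c

lemma laurentX_fg : (⊤ : Subalgebra K (LaurentPolynomial K)[X]).FG := by
  classical
  have hRFG : (⊤ : Subalgebra K (LaurentPolynomial K)).FG := by
    refine ⟨({LaurentPolynomial.T 1, LaurentPolynomial.T (-1)} :
      Finset (LaurentPolynomial K)), ?_⟩
    rw [Finset.coe_pair]; exact laurent_adjoin
  have hRFT : Algebra.FiniteType K (LaurentPolynomial K) := ⟨hRFG⟩
  have hRX : Algebra.FiniteType K (LaurentPolynomial K)[X] :=
    Algebra.FiniteType.trans (S := LaurentPolynomial K) hRFT inferInstance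
  exact hRX.out

theorem fam_finiteType {n : ℕ} {ω : Kˣ} (hω : IsPrimitiveRoot ω (n + 1)) (t : Fin n → Kˣ) :
    Algebra.FiniteType K (fam n ω t) := by
  obtain ⟨h, hh⟩ := exists_delta (pts n ω) (pts_inj hω)
  exact glN_finiteType _ h hh _ (par_ne t) laurentX_fg

theorem fam_typeB [CharZero K] {n : ℕ} {ω : Kˣ} (hω : IsPrimitiveRoot ω (n + 1))
    (t : Fin n → Kˣ) : IsTypeB K (fam n ω t) := by
  have hRFT : Algebra.FiniteType K (LaurentPolynomial K) := by
    classical
    refine ⟨({LaurentPolynomial.T 1, LaurentPolynomial.T (-1)} :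
      Finset (LaurentPolynomial K)), ?_⟩
    rw [Finset.coe_pair]; exact laurent_adjoin
  have : IsNoetherianRing (LaurentPolynomial K) := Algebra.FiniteType.isNoetherianRing K _
  obtain ⟨h, hh⟩ := exists_delta (pts n ω) (pts_inj hω)
  refine glN_typeB _ (∏ i, (LaurentPolynomial.T 1 -
    algebraMap K (LaurentPolynomial K) (pts n ω i : K))) ?_ ?_ h hh 0 (par t) (par_ne t 0)
    (fam_finiteType hω t)
  · exact Finset.prod_ne_zero_iff.2 fun i _ => (prime_x _).ne_zero
  · intro i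
    rw [map_prod]
    refine Finset.prod_eq_zero (Finset.mem_univ i) ?_
    show evL (pts n ω i) (LaurentPolynomial.T 1 -
      algebraMap K (LaurentPolynomial K) (pts n ω i : K)) = 0
    rw [map_sub, evL_x, AlgHom.commutes, Algebra.algebraMap_self, RingHom.id_apply, sub_self]

theorem fam_cylinder {n : ℕ} {ω : Kˣ} (hω : IsPrimitiveRoot ω (n + 1)) (s t : Fin n → Kˣ) :
    Nonempty ((fam n ω s)[X] ≃ₐ[K] (fam n ω t)[X]) := by
  obtain ⟨a, b, e, d, h1, h2, h3, h4, h5⟩ := exists_matrix (pts n ω) (pts_inj hω)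
    (fun i => par s i * (par t i)⁻¹) (fun i => mul_ne_zero (par_ne s i) (inv_ne_zero (par_ne t i)))
  have h6 := cylinder_equiv (fun i => evL (pts n ω i)) a b e d h1
    (fun i => par s i * (par t i)⁻¹) (fun i => (par s i * (par t i)⁻¹)⁻¹) (par t)
    (fun i => inv_mul_cancel₀ (mul_ne_zero (par_ne s i) (inv_ne_zero (par_ne t i)))) h2 h3 h4 h5
  have h7 : (fun i => par s i * (par t i)⁻¹ * par t i) = par s := by
    funext i
    rw [mul_assoc, inv_mul_cancel₀ (par_ne t i), mul_one]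
  rw [h7] at h6
  exact h6

theorem fam_iso {n : ℕ} {ω : Kˣ} (hω : IsPrimitiveRoot ω (n + 1)) (s t : Fin n → Kˣ)
    (h : Nonempty (fam n ω s ≃ₐ[K] fam n ω t)) :
    ∃ (π : Equiv.Perm (Fin (n + 1))) (C : K), C ≠ 0 ∧
      ∀ i, par s (π i) ^ (2 * (n + 1)) = C * par t i ^ (2 * (n + 1)) := by
  obtain ⟨g, hg⟩ := exists_delta (pts n ω) (pts_inj hω)
  obtain ⟨π, ε, hπ, hε, h1⟩ := classify (fun i => evL (pts n ω i)) (LaurentPolynomial.T 1)
    (LaurentPolynomial.T (-1)) (T_mul_T_neg 1) laurent_adjoin (fun i => (pts n ω i : K))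
    (fun i j h => pts_inj hω (Units.ext h)) (fun i => evL_x _) (fun i => prime_x _) g hg
    (par s) (par t) (par_ne t) h
  have hπb : Function.Bijective π := Finite.injective_iff_bijective.1 hπ
  refine ⟨Equiv.ofBijective π hπb, (evL (pts n ω 0) ε ^ (n + 1)) ^ 2,
    pow_ne_zero _ (pow_ne_zero _ (hε.map (evL (pts n ω 0))).ne_zero), fun i => ?_⟩
  have h2 := h1 i
  have h3 := laurent_unit_pow (n + 1) (pts n ω i) (pts n ω 0) (pts_pow hω i) (pts_pow hω 0) ε hε
  show par s (π i) ^ (2 * (n + 1)) = _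
  rw [pow_mul, ← h2, ← h3]
  ring

theorem fam_finite {n : ℕ} {ω : Kˣ} (hω : IsPrimitiveRoot ω (n + 1)) (t : Fin n → Kˣ) :
    {s : Fin n → Kˣ | Nonempty (fam n ω s ≃ₐ[K] fam n ω t)}.Finite := by
  classical
  -- the possible values
  let E : Set Kˣ := ⋃ a : Fin (n + 1), ⋃ b : Fin (n + 1),
    {z : Kˣ | (z : K) ^ (2 * (n + 1)) * par t b ^ (2 * (n + 1)) = par t a ^ (2 * (n + 1))}
  have hE : E.Finite := by
    refine Set.finite_iUnion fun a => Set.finite_iUnion fun b => ?_
    have hp : (X ^ (2 * (n + 1)) * C (par t b ^ (2 * (n + 1))) -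
        C (par t a ^ (2 * (n + 1))) : K[X]) ≠ 0 := by
      intro h0
      have h1 := congrArg (fun p : K[X] => p.coeff (2 * (n + 1))) h0
      have h2 : (C (par t a ^ (2 * (n + 1))) : K[X]).coeff (2 * (n + 1)) = 0 :=
        coeff_C_of_ne_zero (by omega)
      simp only [coeff_sub, h2, sub_zero, coeff_zero, mul_comm (X ^ (2 * (n + 1))),
        coeff_C_mul_X_pow, if_true] at h1
      exact pow_ne_zero _ (par_ne t b) h1
    have hfin := (X ^ (2 * (n + 1)) * C (par t b ^ (2 * (n + 1))) -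
        C (par t a ^ (2 * (n + 1))) : K[X]).rootSet_finite K
    refine Set.Finite.subset (hfin.preimage (f := fun z : Kˣ => (z : K))
      (fun x _ y _ h => Units.ext h)) ?_
    intro z hz
    rw [Set.mem_preimage, mem_rootSet]
    refine ⟨hp, ?_⟩
    have hz' : (z : K) ^ (2 * (n + 1)) * par t b ^ (2 * (n + 1)) = par t a ^ (2 * (n + 1)) := hz
    simp [hz']
  refine Set.Finite.subset (Set.Finite.pi' fun _ : Fin n => hE) ?_
  intro s hs i
  obtain ⟨π, C, hC, h⟩ := fam_iso hω s t hs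
  have h0 := h (π.symm 0)
  have h1 := h (π.symm i.succ)
  rw [Equiv.apply_symm_apply] at h0 h1
  have e0 : par s 0 = 1 := rfl
  have e1 : par s i.succ = (s i : K) := by simp [par]
  rw [e0, one_pow] at h0
  rw [e1] at h1
  refine Set.mem_iUnion.2 ⟨π.symm i.succ, Set.mem_iUnion.2 ⟨π.symm 0, ?_⟩⟩
  show (s i : K) ^ (2 * (n + 1)) * par t (π.symm 0) ^ (2 * (n + 1)) = _
  rw [h1]
  linear_combination (-(par t (π.symm i.succ) ^ (2 * (n + 1)))) * h0

theorem fam_not_rigid [CharZero K] {n : ℕ} (hn : 0 < n) {ω : Kˣ}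
    (hω : IsPrimitiveRoot ω (n + 1)) (t : Fin n → Kˣ) : ¬ IsRigidFactor K (fam n ω t) := by
  intro hrig
  have hinf : Infinite (Fin n → Kˣ) := by
    have : Nonempty (Fin n) := ⟨⟨0, hn⟩⟩
    have : Infinite Kˣ := by
      refine Infinite.of_injective (fun m : ℕ => Units.mk0 ((m + 1 : ℕ) : K)
        (Nat.cast_ne_zero.2 (Nat.succ_ne_zero m))) ?_
      intro a b hab
      have h1 := congrArg (fun z : Kˣ => (z : K)) hab
      simp only [Units.val_mk0] at h1
      have h2 := Nat.cast_injective (R := K) h1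
      omega
    infer_instance
  obtain ⟨s, hs⟩ := (fam_finite hω t).exists_notMem
  apply hs
  obtain ⟨e⟩ := hrig (fam n ω s) inferInstance (fam_finiteType hω s) (fam_cylinder hω t s)
  exact ⟨e.symm⟩

end Pool.Agent.Y374.TB
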