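import Pool.Agent.Y374.TB.Ext
import Pool.Agent.H868R3.TBTypeB

/-!
# The glued algebras are finitely generated and of type B
-/

open Polynomial

set_option autoImplicit false

namespace Pool.Agent.Y374.TB

open Pool.Agent.H868R3

universe u

variable {K R : Type u} [Field K] [CommRing R] [IsDomain R] [Algebra K R]
  {ι : Type} [Fintype ι] [DecidableEq ι]

omit [IsDomain R] in
/-- finite generation of the glued algebra -/
lemma glN_finiteType (P : ι → (R →ₐ[K] K)) (h : ι → R)
    (hh : ∀ i j, P j (h i) = if i = j then 1 else 0) (t : ι → K) (ht : ∀ i, t i ≠ 0)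
    (hR : (⊤ : Subalgebra K R[X]).FG) : Algebra.FiniteType K (glN P t) := by
  constructor
  apply fg_of_fg_of_fg K (glN P t) R[X] hR
  · classical
    refine ⟨insert 1 (Finset.univ.image fun i => C (h i) * X), ?_⟩
    rw [eq_top_iff]
    intro f _
    let v : ι → K := fun i => (ev (P i) (t i) f - ev (P i) 0 f) * (t i)⁻¹
    have hv : ∀ i, v i * t i = ev (P i) (t i) f - ev (P i) 0 f := fun i => by
      show (ev (P i) (t i) f - ev (P i) 0 f) * (t i)⁻¹ * t i = _
      rw [mul_assoc, inv_mul_cancel₀ (ht i), mul_one]
    have hg : f - ∑ i, C (algebraMap K R (v i)) * (C (h i) * X) ∈ glN P t := by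
      rw [mem_glN]
      intro j
      simp only [map_sub, map_sum, map_mul, ev_C, ev_X, AlgHom.commutes, hh,
        Algebra.algebraMap_self, RingHom.id_apply, mul_zero, Finset.sum_const_zero, sub_zero,
        ite_mul, one_mul, zero_mul, mul_ite, Finset.sum_ite_eq', Finset.mem_univ, if_true, hv]
      ring
    have e1 : (⟨_, hg⟩ : glN P t) • (1 : R[X]) =
        (f - ∑ i, C (algebraMap K R (v i)) * (C (h i) * X)) * 1 := rfl
    have e2 : ∀ i, (algebraMap K (glN P t) (v i)) • (C (h i) * X : R[X]) =
        C (algebraMap K R (v i)) * (C (h i) * X) := fun i => rfl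
    have hf : f = (⟨_, hg⟩ : glN P t) • (1 : R[X]) +
        ∑ i, (algebraMap K (glN P t) (v i)) • (C (h i) * X) := by
      rw [e1, Finset.sum_congr rfl (fun i _ => e2 i), mul_one, sub_add_cancel]
    rw [hf]
    apply Submodule.add_mem
    · exact Submodule.smul_mem _ _ (Submodule.subset_span (by simp))
    · exact Submodule.sum_mem _ fun i _ =>
        Submodule.smul_mem _ _ (Submodule.subset_span (by simp))
  · exact Subtype.val_injective

omit [IsDomain R] [Fintype ι] [DecidableEq ι] in
/-- the derivation `a ∂/∂z` of the glued algebra -/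
noncomputable def glD (P : ι → (R →ₐ[K] K)) (t : ι → K) (a : R) (ha : ∀ i, P i a = 0) :
    Derivation K (glN P t) (glN P t) :=
  Derivation.mk'
    { toFun := fun f => ⟨C a * derivative (f : R[X]), mul_mem_glN P t a ha _⟩
      map_add' := by
        intro f g
        apply Subtype.ext
        change C a * derivative ((f : R[X]) + (g : R[X])) = C a * derivative (f : R[X]) +
          C a * derivative (g : R[X])
        rw [derivative_add, mul_add]
      map_smul' := by
        intro c f
        apply Subtype.ext
        change C a * derivative (c • (f : R[X])) = c • (C a * derivative (f : R[X]))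
        rw [derivative_smul, mul_smul_comm] }
    (by
      intro f g
      apply Subtype.ext
      change C a * derivative ((f : R[X]) * (g : R[X])) = (f : R[X]) * (C a * derivative (g : R[X]))
        + (g : R[X]) * (C a * derivative (f : R[X]))
      rw [derivative_mul]; ring)

omit [IsDomain R] [Fintype ι] [DecidableEq ι] in
lemma glD_coe (P : ι → (R →ₐ[K] K)) (t : ι → K) (a : R) (ha : ∀ i, P i a = 0)
    (f : glN P t) : (glD P t a ha f : R[X]) = C a * derivative (f : R[X]) := rfl

omit [IsDomain R] [Fintype ι] [DecidableEq ι] in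
lemma glD_lnd (P : ι → (R →ₐ[K] K)) (t : ι → K) (a : R) (ha : ∀ i, P i a = 0) :
    IsLND (glD P t a ha) := by
  have key : ∀ (n : ℕ) (f : glN P t), (((⇑(glD P t a ha))^[n] f : glN P t) : R[X]) =
      C a ^ n * derivative^[n] (f : R[X]) := by
    intro n
    induction n with
    | zero => intro f; simp
    | succ n ih =>
      intro f
      rw [Function.iterate_succ_apply', glD_coe, ih, Function.iterate_succ_apply',
        derivative_mul, ← C_pow, derivative_C]
      simp only [C_pow]
      ring
  intro f
  refine ⟨(f : R[X]).natDegree + 1, ?_⟩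
  apply Subtype.ext
  rw [key, Polynomial.iterate_derivative_eq_zero (Nat.lt_succ_self _), mul_zero]
  rfl

omit [Fintype ι] in
/-- the glued algebra is of type B -/
theorem glN_typeB [CharZero K] [IsNoetherianRing R] (P : ι → (R →ₐ[K] K)) (a : R)
    (ha0 : a ≠ 0) (ha : ∀ i, P i a = 0) (h : ι → R)
    (hh : ∀ i j, P j (h i) = if i = j then 1 else 0) (i₀ : ι) (t : ι → K) (ht : t i₀ ≠ 0)
    (hFT : Algebra.FiniteType K (glN P t)) : IsTypeB K (glN P t) := by
  have hh0 : P i₀ (h i₀) = 1 := by rw [hh, if_pos rfl]
  have hconst : ∀ F ∈ HDStar K (glN P t)[X], ∃ k : K,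
      resLine (glN P t) (ev (P i₀) 0) F = C k := by
    intro F hF
    refine hdstar_const (glN P t) (ev (P i₀) 0) (ev (P i₀) (t i₀))
      (fun f hf => (mem_glN.mp hf) i₀)
      (C (algebraMap K R (t i₀)⁻¹ * h i₀) * X) (C (h i₀)) ?_ ?_ (C_mem_glN P t _) ?_ ?_ F hF
    · simp
    · simp only [map_mul, ev_C, ev_X, hh0, mul_one, AlgHom.commutes, Algebra.algebraMap_self,
        RingHom.id_apply]
      exact inv_mul_cancel₀ ht
    · simp [hh0]
    · intro f hf h0 i
      rw [mem_glN] at hf ⊢
      intro j
      by_cases hj : i₀ = j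
      · subst hj
        simp only [map_mul, map_pow, ev_C, ← hf i₀, h0, mul_zero]
      · simp only [map_mul, map_pow, ev_C, hh, if_neg hj, zero_mul]
  constructor
  · intro htop
    have h1 : (X : (glN P t)[X]) ∈ HDStar K (glN P t)[X] := by rw [htop]; trivial
    obtain ⟨k, hk⟩ := hconst X h1
    have h2 : resLine (glN P t) (ev (P i₀) 0) (X : (glN P t)[X]) = X := by simp [resLine]
    rw [h2] at hk
    have := congrArg (fun P : K[X] => P.coeff 1) hk
    simp at this
  · have : IsNoetherianRing (glN P t) := Algebra.FiniteType.isNoetherianRing K _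
    let χ : glN P t →ₐ[K] K := (ev (P i₀) 0).comp (glN P t).val
    have hC : (C a * X : R[X]) ∈ glN P t := mul_mem_glN P t a ha X
    have hC2 : (C a * C a : R[X]) ∈ glN P t := mul_mem_glN P t a ha _
    refine not_fg_of (RingHom.ker (χ : glN P t →+* K)) (RingHom.ker_ne_top _) ?_
      (glD P t a ha) (glD_lnd P t a ha) ⟨_, hC⟩ ⟨_, hC2⟩ ?_ ?_ ?_
    · intro F hF n
      obtain ⟨k, hk⟩ := hconst F hF
      have := congrArg (fun P : K[X] => P.coeff (n + 1)) hk
      simp only [resLine, coe_mapAlgHom, coeff_map, coeff_C_succ] at this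
      exact this
    · apply Subtype.ext
      rw [glD_coe]
      simp
    · apply Subtype.ext
      rw [glD_coe]
      change C a * derivative (C a * C a) = 0
      rw [← C_mul, derivative_C, mul_zero]
    · intro h0
      have h1 : (C a * C a : R[X]) = 0 := congrArg Subtype.val h0
      rcases mul_eq_zero.mp h1 with h | h <;> exact ha0 (by simpa using h)

end Pool.Agent.Y374.TB
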